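import Pool.Agent.Y802.QV.Conc
import Pool.Agent.Y802.GC.NF

/-!
# A composition factor criterion for the Fontaine-Mazur conjecture

Let `K/F` be a Galois extension of a number field `F` (finite for the tame or unramified
Fontaine-Mazur conjecture, for example a cyclotomic `ℤ_p`-extension of a finite extension when
primes above `p` are allowed), and let `S` be a set of primes of `F`. Let `𝒢` be the Galois group of
the maximal elementary abelian `p`-extension of `K` unramified outside `S`, on which the absolute
Galois group `G_F` acts by conjugation. Let `ρ` be a continuous representation of `G_F` over a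
Noetherian local ring `A` with finite residue field of characteristic `p`, of any dimension, whose
restriction to `G_K` is unramified outside `S`, and let `V_0, ..., V_(m-1)` be the quotients of a
chain of subrepresentations of the reduction, on which `G_K` acts trivially.

Consider the directed graph with an arrow `V_s → V_s'` unless some element of the group algebra
acts as the identity on `V_s'` and as zero on `𝒢 ⊗ V_s` (for irreducible `V_s'` this means that
`V_s'` is a composition factor of `𝒢 ⊗ V_s`). If the graph has no directed cycle, and no directed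
path with `t` arrows, then all products of `t` matrices `ρ h - 1`, `h` in `G_K`, vanish. If `A` is a
domain and `ρ` is semisimple over its field of fractions, then `G_K` acts trivially, so the image
of `ρ` is a quotient of `Gal(K/F)`. The same holds, without semisimplicity, if `p` is not a zero
divisor in `A` and the abelian `p`-extensions of `K` unramified outside `S` have bounded exponent.
-/

set_option autoImplicit false

open NumberField IsLocalRing

namespace Pool.Agent.Results.MP_f68ac8_nt.CompositionFactors

/-- The homomorphism `f` from the absolute Galois group of `K` to a group `E` is unramified outside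
the set `S` of primes of `F`: for every maximal ideal `P` of the ring of all algebraic integers
such that the prime of `F` below `P` is not in `S`, the inertia group at `P` in the absolute Galois
group of `K` is mapped to `1`. -/
def UnramifiedOutside {F : Type} [Field F] (S : Set (Ideal (𝓞 F)))
    {K : IntermediateField F (AlgebraicClosure F)} {E : Type} [Group E]
    (f : K.fixingSubgroup →* E) : Prop :=
  ∀ P : Ideal (𝓞 (AlgebraicClosure F)), P.IsMaximal →
    P.comap (algebraMap (𝓞 F) (𝓞 (AlgebraicClosure F))) ∉ S → ∀ τ : K.fixingSubgroup,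
      (∀ x : 𝓞 (AlgebraicClosure F), (τ : Gal(AlgebraicClosure F/F)) • x - x ∈ P) → f τ = 1

/-- `p ^ e` kills the Galois group of every finite abelian extension of `K` of `p`-power degree
which is unramified outside `S` (at the finite primes). -/
def AbelianExponent {F : Type} [Field F] (S : Set (Ideal (𝓞 F)))
    (K : IntermediateField F (AlgebraicClosure F)) (p e : ℕ) : Prop :=
  ∀ (E : Type) [CommGroup E] [Finite E], IsPGroup p E → ∀ f : K.fixingSubgroup →* E,
    IsOpen (f.ker : Set K.fixingSubgroup) → UnramifiedOutside S f → ∀ g, f g ^ (p ^ e) = 1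

/-- `f` is a homomorphism from the absolute Galois group of `K` to `ℤ/p` which has open kernel and
is unramified outside `S`, that is, a continuous homomorphism `𝒢 → ℤ/p`. -/
def Mem {F : Type} [Field F] (S : Set (Ideal (𝓞 F)))
    {K : IntermediateField F (AlgebraicClosure F)} {p : ℕ}
    (f : K.fixingSubgroup →* Multiplicative (ZMod p)) : Prop :=
  IsOpen (f.ker : Set K.fixingSubgroup) ∧ UnramifiedOutside S f

section

variable {F : Type} [Field F] {A : Type} [CommRing A] [IsLocalRing A] {n : ℕ}

/-- The action of `σ` on vectors over the residue field, by the reduction of `ρ σ`. -/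
noncomputable def act (ρ : Gal(AlgebraicClosure F/F) →* GL (Fin n) A)
    (σ : Gal(AlgebraicClosure F/F)) (v : Fin n → ResidueField A) : Fin n → ResidueField A :=
  Matrix.mulVec ((ρ σ : Matrix (Fin n) (Fin n) A).map (residue A)) v

/-- `0 = U 0 ⊆ U 1 ⊆ ⋯ ⊆ U m` is a chain of subrepresentations of the reduction of `ρ`, `U m` is
everything, and the absolute Galois group of `K` acts trivially on the quotients
`V_s = U (s + 1) / U s`, `s < m`. -/
structure ResidualChain (K : IntermediateField F (AlgebraicClosure F))
    (ρ : Gal(AlgebraicClosure F/F) →* GL (Fin n) A) (m : ℕ)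
    (U : ℕ → Submodule (ResidueField A) (Fin n → ResidueField A)) : Prop where
  bot : U 0 = ⊥
  mono : ∀ s, U s ≤ U (s + 1)
  top : U m = ⊤
  stable : ∀ s σ, ∀ v ∈ U s, act ρ σ v ∈ U s
  trivial : ∀ s, s < m → ∀ h ∈ K.fixingSubgroup, ∀ v ∈ U (s + 1), act ρ h v - v ∈ U s

/-- There is no arrow from `V_s` to `V_s'`: some element `a = ∑ a_σ σ` of the group algebra of
`G_F` over the residue field acts as the identity on `V_s' = U (s' + 1) / U s'` and as zero on
`𝒢 ⊗ V_s`. Here `σ` acts on `𝒢 ⊗ V_s` by `g ⊗ v ↦ (σ g σ⁻¹) ⊗ σ v`, and an element of `𝒢 ⊗ V_s` is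
zero if and only if its image in `V_s` under every continuous homomorphism `f : 𝒢 → ℤ/p` is zero. -/
def NoArrow [CharZero F] (S : Set (Ideal (𝓞 F))) (K : IntermediateField F (AlgebraicClosure F))
    [IsGalois F K] (p : ℕ) (ρ : Gal(AlgebraicClosure F/F) →* GL (Fin n) A)
    (U : ℕ → Submodule (ResidueField A) (Fin n → ResidueField A)) (s s' : ℕ) : Prop :=
  ∃ a : Gal(AlgebraicClosure F/F) →₀ ResidueField A,
    (∀ v ∈ U (s' + 1), v - ∑ σ ∈ a.support, a σ • act ρ σ v ∈ U s') ∧
    ∀ f : K.fixingSubgroup →* Multiplicative (ZMod p), Mem S f →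
      ∀ g : K.fixingSubgroup, ∀ v ∈ U (s + 1),
        ∑ σ ∈ a.support,
          (a σ * ((Multiplicative.toAdd (f (MulAut.conjNormal σ g))).val : ResidueField A)) •
            act ρ σ v ∈ U s

/-- `ρ` is semisimple over the field `Λ`: every stable subspace has a stable complement. -/
def Semisimple (Λ : Type) [Field Λ] [Algebra A Λ]
    (ρ : Gal(AlgebraicClosure F/F) →* GL (Fin n) A) : Prop :=
  ∀ W : Submodule Λ (Fin n → Λ),
    (∀ σ, ∀ w ∈ W,
      Matrix.mulVec ((ρ σ : Matrix (Fin n) (Fin n) A).map (algebraMap A Λ)) w ∈ W) →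
    ∃ W' : Submodule Λ (Fin n → Λ), IsCompl W W' ∧
      ∀ σ, ∀ w ∈ W',
        Matrix.mulVec ((ρ σ : Matrix (Fin n) (Fin n) A).map (algebraMap A Λ)) w ∈ W'

end

/-- `level` is a function to `{0, ..., t - 1}` which increases strictly along every arrow; it
exists if and only if there are no directed cycles and no directed paths with `t` arrows. -/
theorem result (p : ℕ) [Fact p.Prime] (F : Type) [Field F] [NumberField F]
    (K : IntermediateField F (AlgebraicClosure F)) [IsGalois F K] (S : Set (Ideal (𝓞 F)))
    (A : Type) [CommRing A] [IsLocalRing A] [IsNoetherianRing A] [TopologicalSpace A]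
    (hA : IsAdic (maximalIdeal A)) (hfin : Finite (ResidueField A))
    (hp : (p : A) ∈ maximalIdeal A) (n : ℕ)
    (ρ : Gal(AlgebraicClosure F/F) →* GL (Fin n) A) (hρ : Continuous ρ)
    (hur : UnramifiedOutside S (ρ.comp K.fixingSubgroup.subtype)) (m : ℕ)
    (U : ℕ → Submodule (ResidueField A) (Fin n → ResidueField A)) (hU : ResidualChain K ρ m U)
    (t : ℕ) (level : ℕ → ℕ) (ht : ∀ s, s < m → level s < t)
    (hlevel : ∀ s s', s < m → s' < m → NoArrow S K p ρ U s s' ∨ level s < level s') :
    (∀ h : Fin t → K.fixingSubgroup, (List.ofFn fun i =>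
      (ρ (h i : Gal(AlgebraicClosure F/F)) : Matrix (Fin n) (Fin n) A) - 1).prod = 0) ∧
    (∀ (Λ : Type) [Field Λ] [Algebra A Λ] [IsFractionRing A Λ], Semisimple Λ ρ →
      ∀ h ∈ K.fixingSubgroup, ρ h = 1) ∧
    ∀ e : ℕ, AbelianExponent S K p e → (∀ x : A, (p : A) * x = 0 → x = 0) →
      ∀ h ∈ K.fixingSubgroup, ρ h = 1 := by
  have hpp : p.Prime := Fact.out
  have hUr : ∀ τ ∈ Pool.Agent.Y802.GC.UrN S K.fixingSubgroup,
      ρ (τ : Gal(AlgebraicClosure F/F)) = 1 := fun τ ⟨P, hP, hPS, hτ⟩ => hur P hP hPS τ hτ
  have hmem : ∀ f : K.fixingSubgroup →* Multiplicative (ZMod p),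
      Pool.Agent.Y802.GC.Adm p (Pool.Agent.Y802.GC.UrN S K.fixingSubgroup) f → Mem S f :=
    fun f hf => ⟨hf.isOpen, fun P hP hPS τ hτ => hf.ur τ ⟨P, hP, hPS, hτ⟩⟩
  have hnil : (Pool.Agent.Y802.QV.II A K.fixingSubgroup (Pool.Agent.Y802.QV.mat ρ)) ^ t = ⊥ := by
    refine Pool.Agent.Y802.QV.unip hpp hA hfin hp ρ hρ hUr U hU.bot hU.top
      (fun s g v hv => hU.stable s g v hv) (fun s hs h v hv => hU.trivial s hs h h.2 v hv)
      level ht fun s s' hs hs' hl => ?_
    rcases hlevel s s' hs hs' with ⟨a, ha1, ha0⟩ | h
    · exact ⟨a, fun f hf g v hv => ha0 f (hmem f hf) g v hv, ha1⟩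
    · omega
  refine ⟨Pool.Agent.Y802.QV.prod_eq_zero hnil, ?_, ?_⟩
  · intro Λ _ _ _ hss h hh
    have hdom : IsDomain A := (IsFractionRing.injective A Λ).isDomain
    exact Pool.Agent.Y802.QV.trivial_of_semisimple (Λ := Λ) ρ hnil hss ⟨h, hh⟩
  · intro e he hreg h hh
    refine Pool.Agent.Y802.QV.trivial_of_exponent (e := e) hreg ρ hnil
      (Pool.Agent.Y802.QV.exponent (e := e) hA hfin hp ρ hρ hUr fun E _ _ hE f hf hfu g => ?_) ⟨h, hh⟩
    exact he E hE f hf (fun P hP hPS τ hτ => hfu τ ⟨P, hP, hPS, hτ⟩) g

end Pool.Agent.Results.MP_f68ac8_nt.CompositionFactors
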