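import Pool.Agent.Y802.Final

/-!
# A positive proportion of Frobenius eigenvalues of Artin type forces Artin type

Let `ρ` be a continuous irreducible representation of the absolute Galois group of a number field `K`
over `ℚ_p`, and let `M` be a finite set of integers. Suppose that for a set of primes `v` of positive
upper density some Frobenius element at `v` has nonzero trace and all its eigenvalues are of the form
`N(v) ^ m` times a root of unity, with `m` in `M` depending on `v`. Then `ρ` is a Tate twist of a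
subrepresentation of the cohomology in degree zero of `Spec L` for a finite Galois extension `L` of `K`.
The condition on the traces can be dropped if the upper density is greater than `1 - 1 / n ^ 2`.
-/

set_option autoImplicit false

namespace Pool.Agent.Results.MP_f68ac8_nt.NonzeroRootsOfUnity

open NumberField IsDedekindDomain Filter Polynomial

/-- `σ` is a Frobenius element at the prime `v` of `K`: there is a maximal ideal `Q` above `v` of the
ring of all algebraic integers with `σ x ≡ x ^ N(v)` modulo `Q` for all `x` -/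
def Frobenius {K : Type} [Field K] [NumberField K] (v : HeightOneSpectrum (𝓞 K))
    (σ : Gal(AlgebraicClosure K/K)) : Prop :=
  ∃ Q : Ideal (𝓞 (AlgebraicClosure K)), Q.IsMaximal ∧
    Q.comap (algebraMap (𝓞 K) (𝓞 (AlgebraicClosure K))) = v.asIdeal ∧
    ∀ x : 𝓞 (AlgebraicClosure K), σ • x - x ^ Ideal.absNorm v.asIdeal ∈ Q

/-- every eigenvalue of the matrix `A` is `q ^ m` times a root of unity -/
def TwistedRootsOfUnity (p : ℕ) [Fact p.Prime] {n : ℕ} (A : Matrix (Fin n) (Fin n) ℚ_[p]) (q : ℕ)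
    (m : ℤ) : Prop :=
  ∀ z : AlgebraicClosure ℚ_[p], aeval z A.charpoly = 0 →
    ∃ k : ℕ, 0 < k ∧ z ^ k = (q : AlgebraicClosure ℚ_[p]) ^ (m * k : ℤ)

/-- the set `P` of primes has upper natural density greater than `c`: for some `d > c` there are
arbitrarily large `N` such that at least `d * #{v | N(v) ≤ N}` primes of norm at most `N` lie in `P` -/
def UpperDensityGt {K : Type} [Field K] [NumberField K] (P : Set (HeightOneSpectrum (𝓞 K))) (c : ℝ) :
    Prop :=
  ∃ d : ℝ, c < d ∧ ∃ᶠ N : ℕ in atTop,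
    d * ({v : HeightOneSpectrum (𝓞 K) | Ideal.absNorm v.asIdeal ≤ N}.ncard : ℝ) ≤
      ({v : HeightOneSpectrum (𝓞 K) | Ideal.absNorm v.asIdeal ≤ N ∧ v ∈ P}.ncard : ℝ)

/-- **Main result.** The target of `Φ` with the action `(g f)(φ) = f(g⁻¹ φ)` is the cohomology in degree
zero of `Spec L` over the algebraic closure of `K`; so `ρ` is a Tate twist of a subrepresentation of
it. -/
theorem result (K : Type) [Field K] [NumberField K] (p : ℕ) [Fact p.Prime] (n : ℕ) (hn : 0 < n)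
    (ρ : Gal(AlgebraicClosure K/K) →* GL (Fin n) ℚ_[p]) (hρ : Continuous ρ)
    (hirr : ∀ W : Submodule ℚ_[p] (Fin n → ℚ_[p]),
      (∀ g, ∀ w ∈ W, (ρ g : Matrix (Fin n) (Fin n) ℚ_[p]).mulVec w ∈ W) → W = ⊥ ∨ W = ⊤)
    (M : Finset ℤ)
    (hP :
      UpperDensityGt {v : HeightOneSpectrum (𝓞 K) | ∃ σ : Gal(AlgebraicClosure K/K), Frobenius v σ ∧
        (ρ σ : Matrix (Fin n) (Fin n) ℚ_[p]).trace ≠ 0 ∧
        ∃ m ∈ M, TwistedRootsOfUnity p (ρ σ : Matrix (Fin n) (Fin n) ℚ_[p])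
          (Ideal.absNorm v.asIdeal) m} 0 ∨
      UpperDensityGt {v : HeightOneSpectrum (𝓞 K) | ∃ σ : Gal(AlgebraicClosure K/K), Frobenius v σ ∧
        ∃ m ∈ M, TwistedRootsOfUnity p (ρ σ : Matrix (Fin n) (Fin n) ℚ_[p])
          (Ideal.absNorm v.asIdeal) m} (1 - 1 / (n : ℝ) ^ 2)) :
    ∃ m ∈ M, ∃ L : IntermediateField K (AlgebraicClosure K), FiniteDimensional K L ∧ IsGalois K L ∧
      ∃ Φ : (Fin n → ℚ_[p]) →ₗ[ℚ_[p]] ((L →ₐ[K] AlgebraicClosure K) → ℚ_[p]),
        Function.Injective Φ ∧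
        ∀ (g : Gal(AlgebraicClosure K/K)) (w : Fin n → ℚ_[p]) (φ : L →ₐ[K] AlgebraicClosure K),
          Φ ((ρ g : Matrix (Fin n) (Fin n) ℚ_[p]).mulVec w) φ =
            (((cyclotomicCharacter (AlgebraicClosure K) p
              (MulSemiringAction.toRingAut Gal(AlgebraicClosure K/K) (AlgebraicClosure K) g) :
                ℤ_[p]ˣ) : ℤ_[p]) : ℚ_[p]) ^ m *
              Φ w (((g⁻¹ : Gal(AlgebraicClosure K/K)) :
                AlgebraicClosure K →ₐ[K] AlgebraicClosure K).comp φ) := by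
  have key : Pool.Agent.Y802.NotNull fun v : HeightOneSpectrum (𝓞 K) =>
      ∃ σ, Pool.Agent.W401.Cheb.IsFrob v σ ∧ (∃ m ∈ M, Pool.Agent.Y802.EigAt ρ m v σ) ∧
        (ρ σ : Matrix (Fin n) (Fin n) ℚ_[p]).trace ≠ 0 := by
    rcases hP with ⟨d, hd, hf⟩ | ⟨d, hd, hf⟩
    · obtain ⟨c', hc', hf'⟩ := Pool.Agent.Y802.rel_dens _ le_rfl hd hf
      refine Pool.Agent.Y802.notNull_mono ?_ ⟨c', hc', hf'⟩
      rintro v ⟨σ, h1, h2, h3⟩
      exact ⟨σ, h1, h3, h2⟩
    · have h0 : (0 : ℝ) ≤ 1 - 1 / (n : ℝ) ^ 2 := by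
        have h1 : (1 : ℝ) ≤ n := by exact_mod_cast hn
        have h2 : 1 / (n : ℝ) ^ 2 ≤ 1 := by
          rw [div_le_one (by positivity)]
          nlinarith
        linarith
      obtain ⟨c', hc', hf'⟩ := Pool.Agent.Y802.rel_dens _ h0 hd hf
      refine Pool.Agent.Y802.main_b ρ hρ hn _ _ ?_ c' hc' hf'
      rintro v ⟨σ, h1, h2⟩
      by_cases h3 : (ρ σ : Matrix (Fin n) (Fin n) ℚ_[p]).trace = 0
      · exact Or.inr ⟨σ, h1, h3⟩
      · exact Or.inl ⟨σ, h1, h2, h3⟩
  obtain ⟨m, hm, U, hU⟩ := Pool.Agent.Y802.main_a ρ hρ hirr M key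
  exact ⟨m, hm, Pool.Agent.Y802.exists_embed ρ hn m (Pool.Agent.Y802.twist_irr ρ m hirr) U hU⟩

end Pool.Agent.Results.MP_f68ac8_nt.NonzeroRootsOfUnity
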