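import Pool.Agent.Y802.TS.Main

/-!
# Representations with Frobenius eigenvalues of Tate type at a sparse set of primes

Let `f` be any function. There is a sequence `T` of prime numbers, growing faster than prescribed by `f`,
such that for every number field `K`, every prime number `p` and every continuous irreducible
representation `ρ : G_K → GL_n(ℚ_p)` which is unramified outside a finite set of primes: if the
eigenvalues of the Frobenius elements at the places of degree one above almost all `T i` are of the form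
`ζ (T i) ^ m` with roots of unity `ζ` and exponents `m` in a fixed finite set, then `ρ` is a Tate twist of
a representation with finite image.

Nothing is assumed at the places above `p`, and almost nothing is assumed at the set `T`, which is very
thin: there is a totally real field `L` of infinite degree, Galois and unramified at all finite places over
a real quadratic field, in which all the primes `T i` split completely.
-/

set_option autoImplicit false

namespace Pool.Agent.Results.MP_f68ac8_nt.SparsePrimes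

open NumberField IntermediateField Module Polynomial

attribute [local instance 10] DivisionRing.toRatAlgebra

/-- the absolute Galois group of `ℚ` -/
abbrev GQ : Type := Gal(AlgebraicClosure ℚ/ℚ)

/-- the ring of all algebraic integers -/
abbrev ZBar : Type := 𝓞 (AlgebraicClosure ℚ)

/-- `τ` lies in the inertia group at the maximal ideal `P` of the ring of all algebraic integers -/
def Inertia (P : Ideal ZBar) (τ : GQ) : Prop := ∀ x : ZBar, τ • x - x ∈ P

/-- `σ` is a (geometric) Frobenius element at the maximal ideal `P` above the prime number `q`: it induces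
the inverse of `x ↦ x ^ q` on the residue field -/
def Frobenius (q : ℕ) (P : Ideal ZBar) (σ : GQ) : Prop := ∀ x : ZBar, x - (σ • x) ^ q ∈ P

/-- the `p`-adic cyclotomic character -/
noncomputable def chi (p : ℕ) [Fact p.Prime] (σ : GQ) : ℚ_[p] :=
  ((cyclotomicCharacter (AlgebraicClosure ℚ) p
    (MulSemiringAction.toRingAut GQ (AlgebraicClosure ℚ) σ) : ℤ_[p]ˣ) : ℤ_[p])

/-- `L` is a totally real Galois extension of infinite degree of the real quadratic field `k`, unramified at
all finite places, and a union of finite extensions of `ℚ` whose degrees are powers of two -/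
structure UnramifiedTower (k L : IntermediateField ℚ (AlgebraicClosure ℚ)) : Prop where
  quadratic : finrank ℚ k = 2 ∧ ∃ s ∈ k,
    s ^ 2 = ((17 * 41 * 73 * 89 * 97 * 113 * 137 * 193 * 233 * 241 : ℕ) : AlgebraicClosure ℚ)
  le : k ≤ L
  infinite : ¬ FiniteDimensional ℚ L
  galois : ∀ σ : GQ, (∀ x ∈ k, σ x = x) → ∀ y ∈ L, σ y ∈ L
  unramified : ∀ q : ℕ, q.Prime → ∀ P : Ideal ZBar, P.IsMaximal → (q : ZBar) ∈ P → ∀ τ : GQ,
    (∀ x ∈ k, τ x = x) → Inertia P τ → ∀ y ∈ L, τ y = y
  real : ∀ (φ : L →+* ℂ) (y : L), (φ y).im = 0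
  two : ∀ y ∈ L, ∃ m : ℕ, finrank ℚ ℚ⟮y⟯ = 2 ^ m

/-- the prime number `q` is unramified and splits completely in `L`: all inertia elements and all Frobenius
elements above `q` fix `L` -/
def SplitsCompletely (q : ℕ) (L : IntermediateField ℚ (AlgebraicClosure ℚ)) : Prop :=
  ∀ P : Ideal ZBar, P.IsMaximal → (q : ZBar) ∈ P → ∀ σ : GQ, Inertia P σ ∨ Frobenius q P σ →
    ∀ y ∈ L, σ y = y

section rep

variable {K : IntermediateField ℚ (AlgebraicClosure ℚ)} {p : ℕ} [Fact p.Prime] {n : ℕ}

/-- `ρ` is unramified outside a finite set of primes -/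
def AlmostUnramified (ρ : K.fixingSubgroup →* GL (Fin n) ℚ_[p]) : Prop :=
  ∃ S : Finset ℕ, ∀ q : ℕ, q.Prime → q ∉ S → ∀ P : Ideal ZBar, P.IsMaximal → (q : ZBar) ∈ P →
    ∀ τ : K.fixingSubgroup, Inertia P τ → ρ τ = 1

/-- every stable subspace is zero or everything -/
def Irreducible (ρ : K.fixingSubgroup →* GL (Fin n) ℚ_[p]) : Prop :=
  ∀ W : Submodule ℚ_[p] (Fin n → ℚ_[p]),
    (∀ g, ∀ w ∈ W, (ρ g : Matrix (Fin n) (Fin n) ℚ_[p]).mulVec w ∈ W) → W = ⊥ ∨ W = ⊤

/-- every eigenvalue of the matrix `A` is a root of unity times `q ^ m` with `m ∈ M` -/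
def TateEigenvalues (M : Finset ℤ) (q : ℕ) (A : Matrix (Fin n) (Fin n) ℚ_[p]) : Prop :=
  ∀ z : AlgebraicClosure ℚ_[p], aeval z A.charpoly = 0 →
    ∃ a : ℕ, 0 < a ∧ ∃ m ∈ M, z ^ a = (q : AlgebraicClosure ℚ_[p]) ^ (m * a : ℤ)

/-- the property `C` holds for the matrices of the Frobenius elements at the places of `K` of degree one
above almost all `T i` -/
def AtAlmostAll (T : ℕ → ℕ) (ρ : K.fixingSubgroup →* GL (Fin n) ℚ_[p])
    (C : ℕ → GL (Fin n) ℚ_[p] → Prop) : Prop :=
  ∃ i₀ : ℕ, ∀ i ≥ i₀, ∀ P : Ideal ZBar, P.IsMaximal → (T i : ZBar) ∈ P →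
    ∀ σ : K.fixingSubgroup, Frobenius (T i) P σ → C (T i) (ρ σ)

end rep

/-- **Main result.** -/
theorem result (f : ℕ → ℕ) :
    ∃ (T : ℕ → ℕ) (k L : IntermediateField ℚ (AlgebraicClosure ℚ)),
      (∀ i, (T i).Prime ∧ T i < T (i + 1) ∧ f (T i) < T (i + 1)) ∧
      UnramifiedTower k L ∧ (∀ i, SplitsCompletely (T i) L) ∧
      ∀ (K : IntermediateField ℚ (AlgebraicClosure ℚ)), FiniteDimensional ℚ K →
        ∀ (p : ℕ) [Fact p.Prime] (n : ℕ) (ρ : K.fixingSubgroup →* GL (Fin n) ℚ_[p]),
          Continuous ρ → AlmostUnramified ρ → Irreducible ρ → 0 < n → ∀ M : Finset ℤ,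
          AtAlmostAll T ρ (fun q A => TateEigenvalues M q (A : Matrix (Fin n) (Fin n) ℚ_[p])) →
          ∃ m ∈ M, (Set.range fun σ : K.fixingSubgroup =>
            chi p σ ^ m • (ρ σ : Matrix (Fin n) (Fin n) ℚ_[p])).Finite := by
  obtain ⟨T, k, L, hT1, hT2, htow, hrep⟩ := Pool.Agent.Y802.TS.main f
  refine ⟨T, k, L, fun i => ⟨hT1 i, ?_, ?_⟩, ⟨⟨htow.rank, htow.sqrt⟩, htow.le, htow.inf, htow.galois,
    htow.unr, htow.real, htow.two⟩, ?_, ?_⟩
  · have := hT2 i
    omega
  · have := hT2 i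
    have := (hT1 i).pos
    omega
  · intro i P hP hTP σ hσ
    rcases hσ with hσ | hσ
    · exact htow.unrT i P hP hTP σ hσ
    · exact htow.split i P hP hTP σ hσ
  · intro K hK p hp n ρ hρ hS hirr hn M hM
    obtain ⟨S, hS⟩ := hS
    obtain ⟨i0, hi0⟩ := hM
    obtain ⟨_, h2⟩ := hrep K.fixingSubgroup K.fixingSubgroup_isOpen p n ρ hρ
      ⟨S, fun q hq hqS P hP hqP τ hτ hτP => hS q hq hqS P hP hqP ⟨τ, hτ⟩ hτP⟩
    obtain ⟨m, hm, h3⟩ := h2 hirr hn M.toList ⟨i0, fun i hi P hP hTP σ hσ hσP z hz => by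
      obtain ⟨a, ha, m, hm, h4⟩ := hi0 i hi P hP hTP ⟨σ, hσ⟩ hσP z hz
      exact ⟨a, ha, m, Finset.mem_toList.2 hm, h4⟩⟩
    refine ⟨m, Finset.mem_toList.1 hm, ?_⟩
    refine (h3.image fun A : GL (Fin n) ℚ_[p] => (A : Matrix (Fin n) (Fin n) ℚ_[p])).subset ?_
    rintro _ ⟨σ, rfl⟩
    refine ⟨_, ⟨σ, rfl⟩, ?_⟩
    change (Pool.Agent.Y802.TS.tw ρ (Pool.Agent.Y802.TS.cycU p K.fixingSubgroup) m σ :
      Matrix (Fin n) (Fin n) ℚ_[p]) = _
    rw [Pool.Agent.Y802.TS.tw_val, Units.val_zpow_eq_zpow_val]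
    rfl

end Pool.Agent.Results.MP_f68ac8_nt.SparsePrimes
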