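import Pool.Agent.Y802.ES.Two

/-!
# An exterior square criterion for the tame Fontaine-Mazur conjecture

Let `K/F` be a finite Galois extension of number fields, `p` a prime and `S` a set of primes of
`F` (for the tame Fontaine-Mazur conjecture, not containing the primes above `p`). Suppose that
`p ^ e` kills all finite abelian `p`-quotients of the Galois group `G_{K,S}`, and that no nonzero
quotient `W` of the `𝔽_p[Gal(K/F)]`-module `G_{K,S}^{ab} / p` is a subquotient of its exterior square
`Λ² W` (for example, that `G_{K,S}` is generated by two elements modulo `p`-th powers and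
commutators). Let `A` be a discrete valuation ring with finite residue field of characteristic `p`
in which `p` is not zero. If `p ^ e > 2`, then every continuous representation of the absolute
Galois group of `K` into `GL_n(A)`, for any `n`, which is unramified outside `S` and trivial modulo
`p ^ e` is trivial. (More precisely, the congruence is needed modulo the `s`-th power of the
maximal ideal, where `s ≥ 1`, `s ≥ e e0` and, if `p = 2`, `s > e0`; here `e0` is the valuation
of `p`.)
-/

set_option autoImplicit false

open NumberField IsLocalRing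

namespace Pool.Agent.Results.MP_f68ac8_nt.TameExteriorSquare

/-- The homomorphism `f` from the absolute Galois group of `K` to a group `E` is unramified outside
the set `S` of primes of `F`: for every maximal ideal `P` of the ring of all algebraic integers
such that the prime of `F` below `P` is not in `S`, the inertia group at `P` in the absolute Galois
group of `K` is mapped to `1`. -/
def UnramifiedOutside {F : Type} [Field F] (S : Set (Ideal (𝓞 F)))
    {K : IntermediateField F (AlgebraicClosure F)} {E : Type} [Group E]
    (f : K.fixingSubgroup →* E) : Prop :=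
  ∀ P : Ideal (𝓞 (AlgebraicClosure F)), P.IsMaximal →
    P.comap (algebraMap (𝓞 F) (𝓞 (AlgebraicClosure F))) ∉ S → ∀ τ : K.fixingSubgroup,
      (∀ x : 𝓞 (AlgebraicClosure F), (τ : Gal(AlgebraicClosure F/F)) • x - x ∈ P) → f τ = 1

/-- `p ^ e` kills the Galois group of every finite abelian extension of `K` of `p`-power degree
which is unramified outside `S` (at the finite primes). -/
def AbelianExponent {F : Type} [Field F] (S : Set (Ideal (𝓞 F)))
    (K : IntermediateField F (AlgebraicClosure F)) (p e : ℕ) : Prop :=
  ∀ (E : Type) [CommGroup E] [Finite E], IsPGroup p E → ∀ f : K.fixingSubgroup →* E,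
    IsOpen (f.ker : Set K.fixingSubgroup) → UnramifiedOutside S f → ∀ g, f g ^ (p ^ e) = 1

/-- The finite representation `W` of `Gal(K/F)` over `𝔽_p` is, by way of the homomorphism `f` from
the absolute Galois group of `K` onto `W`, a quotient of `G_{K,S}^{ab} / p`: the map `f` is
surjective with open kernel, unramified outside `S`, and equivariant for the action of the absolute
Galois group of `F` by conjugation. -/
structure IsQuotient {F : Type} [Field F] [CharZero F] (S : Set (Ideal (𝓞 F)))
    (K : IntermediateField F (AlgebraicClosure F)) [IsGalois F K] (p : ℕ) {W : Type}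
    [AddCommGroup W] [Module (ZMod p) W] (τ : Representation (ZMod p) Gal(K/F) W)
    (f : K.fixingSubgroup →* Multiplicative W) : Prop where
  isOpen : IsOpen (f.ker : Set K.fixingSubgroup)
  unramified : UnramifiedOutside S f
  surjective : Function.Surjective f
  equivariant : ∀ (σ : Gal(AlgebraicClosure F/F)) (g : K.fixingSubgroup),
    Multiplicative.toAdd (f (MulAut.conjNormal σ g)) =
      τ (AlgEquiv.restrictNormalHom K σ) (Multiplicative.toAdd (f g))

/-- `W` is a subquotient of its exterior square `Λ² W`, as a representation: there are a finite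
representation `U`, an alternating bilinear equivariant map `B` from `W × W` to `U` and an
injective equivariant linear map `ι` from `W` to `U`, the image of which is contained in the span
of the values of `B`. -/
def SubquotientOfSquare {Δ : Type} [Group Δ] {p : ℕ} {W : Type} [AddCommGroup W]
    [Module (ZMod p) W] (τ : Representation (ZMod p) Δ W) : Prop :=
  ∃ (U : Type) (_ : AddCommGroup U) (_ : Module (ZMod p) U) (_ : Finite U)
    (υ : Representation (ZMod p) Δ U) (B : W →ₗ[ZMod p] W →ₗ[ZMod p] U) (ι : W →ₗ[ZMod p] U),
    (∀ w, B w w = 0) ∧ (∀ d w w', B (τ d w) (τ d w') = υ d (B w w')) ∧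
    (∀ d w, ι (τ d w) = υ d (ι w)) ∧ Function.Injective ι ∧
    ∀ w, ι w ∈ Submodule.span (ZMod p) {u | ∃ a b, u = B a b}

theorem result (p : ℕ) [Fact p.Prime] (F : Type) [Field F] [NumberField F]
    (K : IntermediateField F (AlgebraicClosure F)) [FiniteDimensional F K] [IsGalois F K]
    (S : Set (Ideal (𝓞 F))) (e : ℕ) (he : AbelianExponent S K p e)
    (hW : ∀ (W : Type) [AddCommGroup W] [Module (ZMod p) W] [Finite W] [Nontrivial W]
      (τ : Representation (ZMod p) Gal(K/F) W) (f : K.fixingSubgroup →* Multiplicative W),
      IsQuotient S K p τ f → ¬ SubquotientOfSquare τ)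
    (A : Type) [CommRing A] [IsDomain A] [IsDiscreteValuationRing A] [TopologicalSpace A]
    (hA : IsAdic (maximalIdeal A)) (hfin : Finite (ResidueField A)) (e0 : ℕ)
    (hp : (p : A) ∈ maximalIdeal A) (h0 : (p : A) ∈ maximalIdeal A ^ e0)
    (h1 : (p : A) ∉ maximalIdeal A ^ (e0 + 1)) (n s : ℕ) (hs1 : 1 ≤ s) (hs : e * e0 ≤ s)
    (hs2 : p = 2 → e0 < s)
    (ρ : K.fixingSubgroup →* GL (Fin n) A) (hρ : Continuous ρ) (hur : UnramifiedOutside S ρ)
    (hcong : ∀ g i j, ((ρ g : Matrix (Fin n) (Fin n) A) - 1) i j ∈ maximalIdeal A ^ s) :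
    ∀ g, ρ g = 1 := by
  have hpp : p.Prime := Fact.out
  have : Finite Gal(K/F) := inferInstance
  refine Pool.Agent.Y802.ES.es_main2 (D := Gal(K/F)) (π := AlgEquiv.restrictNormalHom K)
    (Ur := Pool.Agent.Y802.GC.UrN S K.fixingSubgroup) hpp hA hfin hp h0 h1 hs1 hs
    (Decidable.or_iff_not_imp_left.2 fun h => hs2 (not_not.1 h))
    (AlgEquiv.restrictNormalHom_surjective _) (fun σ => ?_)
    (fun g τ hτ => Pool.Agent.Y802.GC.UrN_conj S _ g τ hτ)
    (fun E _ _ hE f hf hfu g => he E hE f hf (fun P hP hPS τ hτ => hfu τ ⟨P, hP, hPS, hτ⟩) g)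
    ?_ ρ hρ (fun τ ⟨P, hP, hPS, hτ⟩ => hur P hP hPS τ hτ) hcong
  · rw [← IntermediateField.restrictNormalHom_ker, MonoidHom.mem_ker]
  · intro W U iW mW fW iU mU fU τ υ α B ι h1 h2 h3 h4 h5 h6 h7 h8 h9
    by_contra hcon
    rw [not_subsingleton_iff_nontrivial] at hcon
    exact hW W τ α ⟨h1, fun P hP hPS τ hτ => h2 τ ⟨P, hP, hPS, hτ⟩, h3, h4⟩
      ⟨U, iU, mU, fU, υ, B, ι, h5, h6, h7, h8, h9⟩

end Pool.Agent.Results.MP_f68ac8_nt.TameExteriorSquare
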